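import Pool.Agent.Work.MP_680515_fl.All
import Pool.Agent.Work.MP_680515_an.DefsR

/-!
# The inner distortion is at least two if the branch curve is nearly linear near one point

`w` is the winding map `(r, θ, z) ↦ (r, 2θ, z)`.  There is an absolute `ε > 0` such that every
quasiregular map `f = φ ∘ w ∘ ψ`, where `φ` and `ψ` are arbitrary homeomorphisms between open sets
of `ℝ³`, has inner distortion at least `2 = K_I(w)` as soon as its branch set (the set of points
which `ψ` maps to the third axis) is, near one of its points, a curve which is `ε`-nearly linear at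
all small scales.  The definitions are in `Pool/Agent/Work/MP_680515_an/Defs.lean`,
`Pool/Agent/Work/MP_680515_an/DefsR.lean` and `Pool/Agent/Work/MP_680515_fl/Defs.lean` (`bset`,
`NearLin`).
-/

set_option autoImplicit false

open Set

namespace Pool.Agent.Results.MP_680515_an.FlatBranchCurve

open Pool.Mart Pool.Flat

/-- There is `ε > 0` such that for all homeomorphisms `φ`, `ψ` between open subsets of `ℝ³` with
`w(ψ(Ω))` in the domain of `φ`, `Ω` the domain of `ψ`: if `f = φ ∘ w ∘ ψ` is quasiregular on `Ω`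
with weak gradient `A` and inner distortion at most `K` almost everywhere, and if in some ball
`B(x0, R) ⊆ Ω` the set of the points which `ψ` maps to the third axis coincides with the arc
`γ([-1, 1])`, where `γ` is injective and continuous, `γ 0 = x0`, and `ε`-nearly linear at all scales
`h ≤ h0`, then `2 ≤ K`. -/
theorem result :
    ∃ ε : ℝ, 0 < ε ∧ ∀ (φ ψ : OpenPartialHomeomorph E3 E3) (A : E3 → M3) (K R h0 : ℝ) (x0 : E3)
      (γ : ℝ → E3),
      (∀ x ∈ ψ.source, wind (ψ x) ∈ φ.source) → 0 < R → Metric.ball x0 R ⊆ ψ.source →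
      γ 0 = x0 → ContinuousOn γ (Icc (-1) 1) → InjOn γ (Icc (-1) 1) →
      bset ψ.source ψ ∩ Metric.ball x0 R = γ '' Icc (-1) 1 ∩ Metric.ball x0 R →
      0 < h0 → NearLin ε γ 1 h0 →
      Quasiregular ψ.source (fun x => φ (wind (ψ x))) A → InnerDistLe ψ.source A K → 2 ≤ K := by
  obtain ⟨ε, h0, h⟩ := f_FI2
  exact ⟨ε, h0, fun φ ψ A K R h0 x0 γ h1 h2 h3 h4 h5 h6 h7 h8 h9 h10 h11 =>
    h φ ψ A K R h0 x0 γ h1 h2 h3 h4 h5 h6 h7 h8 h9 h10.qreg h11.innerDist⟩

end Pool.Agent.Results.MP_680515_an.FlatBranchCurve
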