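import Pool.Agent.Work.MP_680515_gq.All
import Pool.Agent.Work.MP_680515_an.DefsR

/-!
# Martio's conjecture in dimension three with the constant `283/200 > √2`

Every nonconstant quasiregular map of a domain of `ℝ³` whose inner distortion is at most
`283/200 = 1.415` is a local homeomorphism (the conjecture, 1971, has `K < 2`); in particular every
quasiregular map `φ ∘ w ∘ ψ` with a nonempty branch set has inner distortion larger than `283/200`
(`w` is the winding map `(r, θ, z) ↦ (r, 2θ, z)`, `φ`, `ψ` are arbitrary homeomorphisms between open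
sets).  There is no hypothesis on the branch set.  The definitions are in
`Pool/Agent/Work/MP_680515_an/Defs.lean`, `Pool/Agent/Work/MP_680515_an/DefsR.lean` and
`Pool/Agent/Work/MP_680515_fl/Defs.lean` (`bset`).
-/

set_option autoImplicit false

open Set

namespace Pool.Agent.Results.MP_680515_an.MartioConstant

open Pool.Mart Pool.Flat

/-- (1) Let `f` be a nonconstant quasiregular map of a domain `Ω` of `ℝ³` with weak gradient `A`.
If its inner distortion is at most `K ≤ 283/200` almost everywhere, then `f` is a local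
homeomorphism on `Ω`.  (2) Let `φ`, `ψ` be homeomorphisms between open subsets of `ℝ³`, `Ω` the domain
of `ψ`, with `w(ψ(Ω))` in the domain of `φ`, such that some point of `Ω` is mapped by `ψ` to the third
axis.  If `f = φ ∘ w ∘ ψ` is quasiregular on `Ω` with weak gradient `A` and its inner distortion is at
most `K` almost everywhere, then `283/200 < K`. -/
theorem result :
    (∀ (Ω : Set E3) (f : E3 → E3) (A : E3 → M3) (K : ℝ), IsOpen Ω → IsPreconnected Ω →
      (∃ x ∈ Ω, ∃ y ∈ Ω, f x ≠ f y) → Quasiregular Ω f A → InnerDistLe Ω A K → K ≤ 283 / 200 →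
      IsLocalHomeomorphOn f Ω) ∧
    (∀ (φ ψ : OpenPartialHomeomorph E3 E3) (A : E3 → M3) (K : ℝ),
      (∀ x ∈ ψ.source, wind (ψ x) ∈ φ.source) → (bset ψ.source ψ).Nonempty →
      Quasiregular ψ.source (fun x => φ (wind (ψ x))) A → InnerDistLe ψ.source A K →
      283 / 200 < K) :=
  ⟨fun Ω f A K h1 h2 h3 h4 h5 h6 =>
    Pool.GQ.final_hom Ω f A K h1 h2 h3 h4.qreg h5.innerDist h6,
   fun φ ψ A K h1 h2 h3 h4 => Pool.GQ.final_wind φ ψ A K h1 h2 h3.qreg h4.innerDist⟩

end Pool.Agent.Results.MP_680515_an.MartioConstant
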